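import Mathlib

/-!
# MP_cb4251_co: a 2-arc-strong split digraph of minimum degree 5 without a strong arc decomposition

Digraphs are given by their set of arcs `A : Set (V × V)`; the pair `(u, v)` is the arc from `u`
to `v`.  The counterexample has six vertices and sixteen arcs.  Five of its directed cuts have
exactly two arcs, and these five pairs of arcs form a closed chain of odd length, so no splitting
of the arc set into two parts can meet every directed cut in both parts.
-/

namespace Pool.Agent.Results.MP_cb4251_co.SixVertexCounterexample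

/-- The spanning subdigraph with arc set `A` is strongly connected: every vertex can be reached
from every vertex along arcs of `A`. -/
def StronglyConnected {V : Type} (A : Set (V × V)) : Prop :=
  ∀ u v : V, Relation.ReflTransGen (fun x y => (x, y) ∈ A) u v

/-- No arc joins a vertex to itself. -/
def Loopless {V : Type} (A : Set (V × V)) : Prop :=
  ∀ v : V, (v, v) ∉ A

/-- There is no arc inside `S`. -/
def IndependentOn {V : Type} (A : Set (V × V)) (S : Set V) : Prop :=
  ∀ u ∈ S, ∀ v ∈ S, (u, v) ∉ A

/-- Any two distinct vertices of `S` are joined by at least one arc. -/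
def SemicompleteOn {V : Type} (A : Set (V × V)) (S : Set V) : Prop :=
  ∀ u ∈ S, ∀ v ∈ S, u ≠ v → (u, v) ∈ A ∨ (v, u) ∈ A

/-- A split digraph: the vertex set is the disjoint union of an independent set `V₁` and a set
`V₂` that induces a semicomplete digraph. -/
def IsSplit {V : Type} (A : Set (V × V)) : Prop :=
  ∃ V₁ V₂ : Set V, V₁ ∪ V₂ = Set.univ ∧ V₁ ∩ V₂ = ∅ ∧ IndependentOn A V₁ ∧ SemicompleteOn A V₂

/-- `k`-arc-strong: deleting any set of fewer than `k` arcs leaves a strongly connected
digraph. -/
def ArcStrong {V : Type} (k : ℕ) (A : Set (V × V)) : Prop :=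
  ∀ X : Finset (V × V), X.card < k → StronglyConnected (A \ (X : Set (V × V)))

/-- Out-degree plus in-degree. -/
noncomputable def degree {V : Type} (A : Set (V × V)) (v : V) : ℕ :=
  {w : V | (v, w) ∈ A}.ncard + {w : V | (w, v) ∈ A}.ncard

/-- A strong arc decomposition: a partition of the arc set into two parts, each of which is the
arc set of a strongly connected spanning subdigraph. -/
def HasStrongArcDecomposition {V : Type} (A : Set (V × V)) : Prop :=
  ∃ A₁ A₂ : Set (V × V), A₁ ∪ A₂ = A ∧ A₁ ∩ A₂ = ∅ ∧ StronglyConnected A₁ ∧ StronglyConnected A₂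

/-! ### Two general facts -/

/-- A strongly connected digraph has an arc leaving every set that is not empty and not
everything. -/
lemma exists_leaving {V : Type} {A : Set (V × V)} (h : StronglyConnected A) (S : V → Prop)
    {u v : V} (hu : S u) (hv : ¬ S v) : ∃ x y : V, (x, y) ∈ A ∧ S x ∧ ¬ S y := by
  by_contra hcon
  push Not at hcon
  have key : ∀ w : V, Relation.ReflTransGen (fun x y => (x, y) ∈ A) u w → S w := by
    intro w hw
    induction hw with
    | refl => exact hu
    | tail _ hbc ih => exact hcon _ _ hbc ih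
  exact hv (key v (h u v))

/-- The walk condition along a list. -/
def IsWalk {V : Type} (r : V → V → Prop) : V → List V → Prop
  | _, [] => True
  | a, b :: l => r a b ∧ IsWalk r b l

/-- The last vertex of a walk. -/
def lastOf {V : Type} : V → List V → V
  | a, [] => a
  | _, b :: l => lastOf b l

lemma reach_of_walk {V : Type} {r : V → V → Prop} :
    ∀ (l : List V) (a : V), IsWalk r a l → ∀ x ∈ a :: l,
      Relation.ReflTransGen r a x ∧ Relation.ReflTransGen r x (lastOf a l) := by
  intro l
  induction l with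
  | nil =>
    intro a _ x hx
    simp only [List.mem_singleton] at hx
    subst hx
    exact ⟨Relation.ReflTransGen.refl, Relation.ReflTransGen.refl⟩
  | cons b l ih =>
    intro a hw x hx
    have hab : r a b := hw.1
    have hb := ih b hw.2
    rcases List.mem_cons.mp hx with rfl | hx
    · exact ⟨Relation.ReflTransGen.refl,
        Relation.ReflTransGen.head hab (hb b List.mem_cons_self).2⟩
    · exact ⟨Relation.ReflTransGen.head hab (hb x hx).1, (hb x hx).2⟩

lemma strong_of_walk {V : Type} {A : Set (V × V)} (a : V) (l : List V)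
    (hw : IsWalk (fun x y => (x, y) ∈ A) a l) (hc : lastOf a l = a) (hall : ∀ x : V, x ∈ a :: l) :
    StronglyConnected A := by
  intro u v
  have hu := (reach_of_walk l a hw u (hall u)).2
  have hv := (reach_of_walk l a hw v (hall v)).1
  rw [hc] at hu
  exact hu.trans hv

/-! ### The digraph -/

/-- The arcs, as a function to `Bool`. -/
def arc : Fin 6 → Fin 6 → Bool
  | 0, 1 => true
  | 0, 4 => true
  | 1, 2 => true
  | 1, 5 => true
  | 2, 0 => true
  | 2, 3 => true
  | 2, 4 => true
  | 3, 0 => true
  | 3, 1 => true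
  | 3, 4 => true
  | 3, 5 => true
  | 4, 0 => true
  | 4, 2 => true
  | 5, 0 => true
  | 5, 1 => true
  | 5, 3 => true
  | _, _ => false

/-- The arc set of the counterexample. -/
def D : Set (Fin 6 × Fin 6) := {p | arc p.1 p.2 = true}

lemma mem_D (x y : Fin 6) : (x, y) ∈ D ↔ arc x y = true := Iff.rfl

/-- A Boolean version of the walk condition in `D` with one pair forbidden. -/
def walkAvoids (e : Fin 6 × Fin 6) : Fin 6 → List (Fin 6) → Bool
  | _, [] => true
  | a, b :: l => arc a b && decide ((a, b) ≠ e) && walkAvoids e b l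

lemma isWalk_of_walkAvoids (X : Finset (Fin 6 × Fin 6)) (e : Fin 6 × Fin 6)
    (hX : ∀ p ∈ X, p = e) :
    ∀ (l : List (Fin 6)) (a : Fin 6), walkAvoids e a l = true →
      IsWalk (fun x y => (x, y) ∈ D \ (X : Set (Fin 6 × Fin 6))) a l := by
  intro l
  induction l with
  | nil => intro a _; trivial
  | cons b l ih =>
    intro a h
    simp only [walkAvoids, Bool.and_eq_true, decide_eq_true_eq] at h
    refine ⟨⟨h.1.1, ?_⟩, ih b h.2⟩
    intro hmem
    exact h.1.2 (hX _ (by simpa using hmem))

/-- Three closed walks through all the vertices; every arc is avoided by one of them. -/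
lemma walks : ∀ x y : Fin 6,
    walkAvoids (x, y) 0 [1, 5, 3, 4, 2, 0] = true ∨
    walkAvoids (x, y) 0 [4, 2, 3, 1, 5, 0] = true ∨
    walkAvoids (x, y) 0 [1, 2, 3, 5, 0, 4, 0] = true := by
  decide

lemma strong_of_subset_singleton (X : Finset (Fin 6 × Fin 6)) (e : Fin 6 × Fin 6)
    (hX : ∀ p ∈ X, p = e) : StronglyConnected (D \ (X : Set (Fin 6 × Fin 6))) := by
  obtain ⟨x, y⟩ := e
  rcases walks x y with h | h | h
  · exact strong_of_walk 0 _ (isWalk_of_walkAvoids X (x, y) hX _ _ h) (by decide) (by decide)
  · exact strong_of_walk 0 _ (isWalk_of_walkAvoids X (x, y) hX _ _ h) (by decide) (by decide)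
  · exact strong_of_walk 0 _ (isWalk_of_walkAvoids X (x, y) hX _ _ h) (by decide) (by decide)

lemma arcStrong_D : ArcStrong 2 D := by
  intro X hX
  have h1 : X.card ≤ 1 := by omega
  rcases X.eq_empty_or_nonempty with h0 | ⟨e, he⟩
  · exact strong_of_subset_singleton X (0, 0) (by intro p hp; rw [h0] at hp; simp at hp)
  · exact strong_of_subset_singleton X e
      (fun p hp => Finset.card_le_one.mp h1 p hp e he)

lemma loopless_D : Loopless D := by
  intro v
  rw [mem_D]
  revert v
  decide

lemma split_D : IsSplit D := by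
  refine ⟨{v | v = 4 ∨ v = 5}, {v | ¬ (v = 4 ∨ v = 5)}, ?_, ?_, ?_, ?_⟩
  · ext v
    simp only [Set.mem_union, Set.mem_ofPred_eq, Set.mem_univ, iff_true]
    exact Classical.em _
  · ext v
    simp only [Set.mem_inter_iff, Set.mem_ofPred_eq, Set.mem_empty_iff_false, iff_false]
    tauto
  · intro u hu v hv
    rw [mem_D]
    simp only [Set.mem_ofPred_eq] at hu hv
    revert u v
    decide
  · intro u hu v hv huv
    rw [mem_D, mem_D]
    simp only [Set.mem_ofPred_eq] at hu hv
    revert u v
    decide

lemma degree_D : ∀ v : Fin 6, 5 ≤ degree D v := by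
  intro v
  have e1 : {w : Fin 6 | (v, w) ∈ D} = ((Finset.univ.filter fun w => arc v w = true :
      Finset (Fin 6)) : Set (Fin 6)) := by
    ext w; simp [mem_D]
  have e2 : {w : Fin 6 | (w, v) ∈ D} = ((Finset.univ.filter fun w => arc w v = true :
      Finset (Fin 6)) : Set (Fin 6)) := by
    ext w; simp [mem_D]
  unfold degree
  rw [e1, e2, Set.ncard_coe_finset, Set.ncard_coe_finset]
  clear e1 e2
  revert v
  decide

/-! ### No decomposition -/

/-- If the only arcs of `D` that leave `S` are `p` and `q`, then in a strong arc decomposition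
one of them lies in the first part and the other in the second. -/
lemma cut_two {A₁ A₂ : Set (Fin 6 × Fin 6)} (hU : A₁ ∪ A₂ = D) (hI : A₁ ∩ A₂ = ∅)
    (h₁ : StronglyConnected A₁) (h₂ : StronglyConnected A₂) (S : Fin 6 → Bool) (u v : Fin 6)
    (p q : Fin 6 × Fin 6)
    (hcut : S u = true ∧ S v = false ∧
      ∀ x y : Fin 6, arc x y = true → S x = true → S y = false → (x, y) = p ∨ (x, y) = q) :
    (p ∈ A₁ ↔ q ∉ A₁) := by
  obtain ⟨hu, hv, hc⟩ := hcut
  have a1 : p ∈ A₁ ∨ q ∈ A₁ := by
    obtain ⟨x, y, hxy, hx, hy⟩ := exists_leaving h₁ (fun w => S w = true) (u := u) (v := v) hu (by simp [hv])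
    have hD : (x, y) ∈ D := hU ▸ Or.inl hxy
    rcases hc x y hD hx (by simpa using hy) with h | h
    · exact Or.inl (h ▸ hxy)
    · exact Or.inr (h ▸ hxy)
  have a2 : p ∈ A₂ ∨ q ∈ A₂ := by
    obtain ⟨x, y, hxy, hx, hy⟩ := exists_leaving h₂ (fun w => S w = true) (u := u) (v := v) hu (by simp [hv])
    have hD : (x, y) ∈ D := hU ▸ Or.inr hxy
    rcases hc x y hD hx (by simpa using hy) with h | h
    · exact Or.inl (h ▸ hxy)
    · exact Or.inr (h ▸ hxy)
  have disj : ∀ e, e ∈ A₁ → e ∈ A₂ → False := by
    intro e he1 he2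
    have : e ∈ A₁ ∩ A₂ := ⟨he1, he2⟩
    rw [hI] at this
    exact this
  constructor
  · intro hp hq
    rcases a2 with h | h
    · exact disj _ hp h
    · exact disj _ hq h
  · intro hq
    rcases a1 with h | h
    · exact h
    · exact absurd h hq

lemma no_decomposition_D : ¬ HasStrongArcDecomposition D := by
  rintro ⟨A₁, A₂, hU, hI, h₁, h₂⟩
  -- the five directed cuts with exactly two arcs
  have c1 := cut_two hU hI h₁ h₂ (fun w => decide (w = 0 ∨ w = 4)) 0 1 (0, 1) (4, 2) (by decide)
  have c2 := cut_two hU hI h₁ h₂ (fun w => decide (w ≠ 2)) 0 2 (1, 2) (4, 2) (by decide)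
  have c3 := cut_two hU hI h₁ h₂ (fun w => decide (w = 1)) 1 0 (1, 2) (1, 5) (by decide)
  have c4 := cut_two hU hI h₁ h₂ (fun w => decide (w = 0 ∨ w = 1 ∨ w = 2 ∨ w = 4)) 0 3
    (1, 5) (2, 3) (by decide)
  have c5 := cut_two hU hI h₁ h₂ (fun w => decide (w = 0 ∨ w = 2 ∨ w = 4)) 0 1
    (0, 1) (2, 3) (by decide)
  tauto

/-- **Theorem.** There is a loopless digraph on six vertices that is a split digraph, is
2-arc-strong, has every out-degree plus in-degree at least five, and has no strong arc
decomposition. -/
theorem result : ∃ A : Set (Fin 6 × Fin 6),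
    Loopless A ∧ IsSplit A ∧ ArcStrong 2 A ∧ (∀ v, 5 ≤ degree A v) ∧
      ¬ HasStrongArcDecomposition A :=
  ⟨D, loopless_D, split_D, arcStrong_D, degree_D, no_decomposition_D⟩

end Pool.Agent.Results.MP_cb4251_co.SixVertexCounterexample
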